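import Pool.Agent.Helper69.UW.Defs
import Pool.Agent.Helper82.UG.Fm2

/-!
# UW-M5: the weighted second moment of `F - 1`

`fm_of`: block M5 of the project UW from R1, R2, M4 (port of Helper82/UG/Fm, Fm2; the mollifier is taken for any finite set `Q`).
-/

set_option autoImplicit false
open MeasureTheory Set Filter Topology
open Pool.Agent.Helper57.Zeta Pool.Agent.Helper57.LH Pool.Agent.Helper57.ED Pool.Agent.Helper54.LG
open Pool.Agent.Helper69.UG (pt XX NR NM WW)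
open Pool.Agent.Helper69.UW Pool.Agent.Helper82.RG
open Pool.Agent.Helper82.UG (err_bd pt_eq Mo_cont ze_cont cv Mo_mul sum_abs_cv tsum_conv)

namespace Pool.Agent.Helper64.UW

lemma ma_le {T : ℝ} {Q : Finset ℕ} (d : ℕ) : |ma T Q d| ≤ 1 := by
  unfold ma
  split_ifs
  · rw [abs_mul]
    have h1 : |(ArithmeticFunction.moebius d : ℝ)| ≤ 1 := by
      exact_mod_cast ArithmeticFunction.abs_moebius_le_one (n := d)
    have h2 : |max 0 (min 1 (2 - 32 * Real.log d / Real.log T))| ≤ 1 := by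
      rw [abs_of_nonneg (le_max_left _ _)]
      exact max_le zero_le_one (min_le_left _ _)
    exact mul_le_one₀ h1 (abs_nonneg _) h2
  · simp

lemma mb_le {T : ℝ} {Q : Finset ℕ} (d : ℕ) : |mb T Q d| ≤ 1 := by
  unfold mb
  split_ifs
  · exact_mod_cast ArithmeticFunction.abs_moebius_le_one (n := d)
  · simp

lemma ma_supp {T : ℝ} {Q : Finset ℕ} (hT : 1 < T) {d : ℕ} (h : ma T Q d ≠ 0) : (d : ℝ) ≤ T ^ (1 / 16 : ℝ) := by
  have hL : 0 < Real.log T := Real.log_pos hT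
  rcases Nat.eq_zero_or_pos d with h0 | h0
  · subst h0
    simp
    positivity
  · have hd : (0:ℝ) < d := by exact_mod_cast h0
    unfold ma at h
    split_ifs at h with h1
    · have h2 := right_ne_zero_of_mul h
      have h3 : 0 < min 1 (2 - 32 * Real.log d / Real.log T) := by
        by_contra hcon
        exact h2 (max_eq_left (not_lt.1 hcon))
      have h4 := (lt_min_iff.1 h3).2
      have h5 : Real.log d ≤ 1 / 16 * Real.log T := by
        have : 32 * Real.log d / Real.log T < 2 := by linarith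
        rw [div_lt_iff₀ hL] at this
        linarith
      calc (d:ℝ) = Real.exp (Real.log d) := (Real.exp_log hd).symm
        _ ≤ Real.exp (1 / 16 * Real.log T) := Real.exp_le_exp.2 h5
        _ = T ^ (1 / 16 : ℝ) := by rw [Real.rpow_def_of_pos (by linarith), mul_comm]
    · exact absurd rfl h

lemma mb_supp {T : ℝ} {Q : Finset ℕ} {d : ℕ} (h : mb T Q d ≠ 0) : (d : ℝ) ≤ T ^ (1 / 32 : ℝ) := by
  unfold mb at h
  split_ifs at h with h1
  · exact h1.2
  · exact absurd rfl h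

lemma mm_supp {T : ℝ} {Q : Finset ℕ} (hT : 1 < T) (n : ℕ) (hn : NM T < n) : mm T Q n = 0 := by
  unfold mm
  refine Finset.sum_eq_zero fun x hx => ?_
  by_contra hcon
  have h1 := ma_supp hT (left_ne_zero_of_mul hcon)
  have h2 := mb_supp (right_ne_zero_of_mul hcon)
  rw [Nat.mem_divisorsAntidiagonal] at hx
  have h3 : (n : ℝ) ≤ T ^ (3 / 32 : ℝ) := by
    rw [← hx.1]
    push_cast
    calc (x.1 : ℝ) * x.2 ≤ T ^ (1 / 16 : ℝ) * T ^ (1 / 32 : ℝ) :=
          mul_le_mul h1 h2 (by positivity) (by positivity)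
      _ = T ^ (3 / 32 : ℝ) := by
          rw [← Real.rpow_add (by linarith)]
          norm_num
  have h4 : n ≤ NM T := Nat.le_floor h3
  omega

lemma mm_zero {T : ℝ} {Q : Finset ℕ} : mm T Q 0 = 0 := by
  unfold mm
  simp

lemma mm_le {T : ℝ} {Q : Finset ℕ} (n : ℕ) : |mm T Q n| ≤ n := by
  unfold mm
  refine (Finset.abs_sum_le_sum_abs _ _).trans ?_
  calc ∑ x ∈ n.divisorsAntidiagonal, |ma T Q x.1 * mb T Q x.2| ≤ ∑ x ∈ n.divisorsAntidiagonal, (1:ℝ) := by
        refine Finset.sum_le_sum fun x _ => ?_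
        rw [abs_mul]
        exact mul_le_one₀ (ma_le _) (abs_nonneg _) (mb_le _)
    _ = ((n.divisors.card : ℕ) : ℝ) := by
        rw [Nat.sum_divisorsAntidiagonal (fun _ _ => (1:ℝ))]
        simp
    _ ≤ n := by exact_mod_cast Nat.card_divisors_le_self n

lemma sum_mm {T : ℝ} {Q : Finset ℕ} (hT : 1 < T) : ∑ d ∈ Finset.Icc 1 (NM T), |mm T Q d| ≤ T ^ (3 / 16 : ℝ) := by
  have h0 : (NM T : ℝ) ≤ T ^ (3 / 32 : ℝ) := Nat.floor_le (by positivity)
  calc ∑ d ∈ Finset.Icc 1 (NM T), |mm T Q d| ≤ ∑ d ∈ Finset.Icc 1 (NM T), (NM T : ℝ) := by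
        refine Finset.sum_le_sum fun d hd => (mm_le d).trans ?_
        exact_mod_cast (Finset.mem_Icc.1 hd).2
    _ = (NM T : ℝ) * NM T := by
        rw [Finset.sum_const, nsmul_eq_mul, Nat.card_Icc]
        simp
    _ ≤ T ^ (3 / 32 : ℝ) * T ^ (3 / 32 : ℝ) := mul_le_mul h0 h0 (by positivity) (by positivity)
    _ = T ^ (3 / 16 : ℝ) := by
        rw [← Real.rpow_add (by linarith)]
        norm_num

/-- twisted coefficients (`w` is `cos` or `sin`) -/
noncomputable def qq (δ T c m v σ u : ℝ) (w : ℝ → ℝ) (n : ℕ) : ℝ := rr δ T c m v n * (n : ℝ) ^ (σ - 1 / 2) * w (u * Real.log n)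

lemma qq_le {δ T c m v σ u : ℝ} {w : ℝ → ℝ} (hw : ∀ x, |w x| ≤ 1) (n : ℕ) :
    |qq δ T c m v σ u w n| ≤ |rr δ T c m v n| * (n : ℝ) ^ (σ - 1 / 2) := by
  unfold qq
  have h : 0 ≤ (n : ℝ) ^ (σ - 1 / 2) := Real.rpow_nonneg (Nat.cast_nonneg _) _
  rw [abs_mul, abs_mul, abs_of_nonneg h]
  exact mul_le_of_le_one_right (by positivity) (hw _)

lemma RR_shift {δ T c m v σ u : ℝ} (s : ℝ) :
    RR δ T c m v (s - u) = Mo (NR T) (qq δ T c m v σ u Real.cos) (σ + s * Complex.I) +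
      Complex.I * Mo (NR T) (qq δ T c m v σ u Real.sin) (σ + s * Complex.I) := by
  unfold RR Mo
  rw [Finset.mul_sum, ← Finset.sum_add_distrib]
  refine Finset.sum_congr rfl fun n hn => ?_
  have hn0 : 0 < n := (Finset.mem_Icc.1 hn).1
  have hnR : (0:ℝ) < n := by exact_mod_cast hn0
  have hnC : (n : ℂ) ≠ 0 := by exact_mod_cast hnR.ne'
  have e1 : (n : ℂ) ^ (-((1 / 2 : ℂ) + ((s - u : ℝ) : ℂ) * Complex.I)) =
      (n : ℂ) ^ (-(σ + s * Complex.I)) * (((n : ℝ) ^ (σ - 1 / 2) : ℝ) : ℂ) *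
        Complex.exp ((u * Real.log n : ℝ) * Complex.I) := by
    have e2 : (((n : ℝ) ^ (σ - 1 / 2) : ℝ) : ℂ) = (n : ℂ) ^ ((σ - 1 / 2 : ℝ) : ℂ) := by
      rw [Complex.ofReal_cpow hnR.le]
      simp
    have e3 : Complex.exp ((u * Real.log n : ℝ) * Complex.I) = (n : ℂ) ^ (u * Complex.I) := by
      rw [Complex.cpow_def_of_ne_zero hnC, ← Complex.natCast_log]
      congr 1
      push_cast
      ring
    rw [e2, e3, ← Complex.cpow_add _ _ hnC, ← Complex.cpow_add _ _ hnC]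
    congr 1
    push_cast
    ring
  rw [e1, Complex.exp_mul_I, ← Complex.ofReal_cos, ← Complex.ofReal_sin]
  unfold qq
  push_cast
  ring

lemma fin_bd {δ T c m v σ u : ℝ} {w : ℝ → ℝ} (hw : ∀ x, |w x| ≤ 1) (hT : 1 < T) (hσ1 : σ ≤ 3 / 4)
    (hr : ∀ n, |rr δ T c m v n| ≤ T ^ (1 / 192 : ℝ)) :
    ∑ n ∈ Finset.Icc 1 (NR T), |qq δ T c m v σ u w n| ≤ T ^ (31 / 192 : ℝ) := by
  have hT0 : 0 < T := by linarith
  have h0 : (NR T : ℝ) ≤ T ^ (1 / 8 : ℝ) := Nat.floor_le (by positivity)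
  calc ∑ n ∈ Finset.Icc 1 (NR T), |qq δ T c m v σ u w n| ≤
      ∑ n ∈ Finset.Icc 1 (NR T), T ^ (1 / 192 : ℝ) * T ^ (1 / 32 : ℝ) := by
        refine Finset.sum_le_sum fun n hn => (qq_le hw n).trans ?_
        have hn1 := (Finset.mem_Icc.1 hn).1
        have hn2 := (Finset.mem_Icc.1 hn).2
        have hnR : (1:ℝ) ≤ n := by exact_mod_cast hn1
        refine mul_le_mul (hr n) ?_ (Real.rpow_nonneg (by linarith) _) (by positivity)
        calc (n : ℝ) ^ (σ - 1 / 2) ≤ (n : ℝ) ^ (1 / 4 : ℝ) :=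
              Real.rpow_le_rpow_of_exponent_le hnR (by linarith)
          _ ≤ (T ^ (1 / 8 : ℝ)) ^ (1 / 4 : ℝ) := by
              refine Real.rpow_le_rpow (by linarith) (le_trans ?_ h0) (by norm_num)
              exact_mod_cast hn2
          _ = T ^ (1 / 32 : ℝ) := by
              rw [← Real.rpow_mul hT0.le]
              norm_num
    _ = (NR T : ℝ) * (T ^ (1 / 192 : ℝ) * T ^ (1 / 32 : ℝ)) := by
        rw [Finset.sum_const, nsmul_eq_mul, Nat.card_Icc]
        simp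
    _ ≤ T ^ (1 / 8 : ℝ) * (T ^ (1 / 192 : ℝ) * T ^ (1 / 32 : ℝ)) := mul_le_mul_of_nonneg_right h0 (by positivity)
    _ = T ^ (31 / 192 : ℝ) := by
        rw [← Real.rpow_add hT0, ← Real.rpow_add hT0]
        norm_num

/-- R1 as a statement -/
def RrSupp (δ : ℝ) : Prop := ∀ {T c m v : ℝ} (_ : 1 ≤ T) (_ : 0 < m) {n : ℕ} (_ : rr δ T c m v n ≠ 0),
    1 ≤ n ∧ n ≤ NR T ∧ Squarefree n

/-- R2 as a statement -/
def RrBd (δ : ℝ) : Prop := ∃ c0 T0 : ℝ, ∀ T c m v : ℝ, T0 ≤ T → Adm c0 T c m → |v| = vv δ c m →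
    ∀ n, |rr δ T c m v n| ≤ T ^ (1 / 192 : ℝ) ∧ 1 ≤ VV δ T c m v

/-- M4 as a statement -/
def Arith (δ : ℝ) : Prop := ∃ C c0 T0 : ℝ, 0 < C ∧ ∀ T c m v : ℝ, T0 ≤ T → Adm c0 T c m →
    |v| = vv δ c m →
    ∀ σ, 1 / 2 + 1 / Real.log T ≤ σ → σ ≤ 3 / 4 → ∀ q : ℕ → ℝ, (∀ n, |q n| ≤ |rr δ T c m v n| * (n : ℝ) ^ (σ - 1 / 2)) →
    Summable (fun j : ℕ => ((∑ h ∈ j.divisors, gg T (PR δ T c m) h * q (j / h)) - q j) ^ 2 * (j : ℝ) ^ (-2 * σ)) ∧
    ∑' j : ℕ, ((∑ h ∈ j.divisors, gg T (PR δ T c m) h * q (j / h)) - q j) ^ 2 * (j : ℝ) ^ (-2 * σ) ≤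
      C * T ^ (-(σ - 1 / 2 - 1 / Real.log T) / 16) * Real.exp (C * √m) * VV δ T c m v

lemma RR_cont (δ T c m v : ℝ) : Continuous (RR δ T c m v) := by
  unfold RR
  refine continuous_finsetSum _ fun n hn => ?_
  have hn0 : (n : ℂ) ≠ 0 := by exact_mod_cast (Nat.pos_iff_ne_zero.mp (Finset.mem_Icc.1 hn).1)
  exact continuous_const.mul (Continuous.const_cpow (by fun_prop) (Or.inl hn0))

lemma FF_cont {T : ℝ} {Q : Finset ℕ} {σ : ℝ} (hσ1 : σ < 1) : Continuous (fun s : ℝ => FF T Q (σ + s * Complex.I)) := by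
  unfold FF
  exact (ze_cont hσ1).mul ((Mo_cont _ _).comp (by fun_prop))

/-- pointwise split into the cosine and sine parts -/
lemma point {δ T c m v σ u : ℝ} {Q : Finset ℕ} (hT : 1 < T) (hr : ∀ n, NR T < n → rr δ T c m v n = 0) (s : ℝ) :
    ‖RR δ T c m v (s - u)‖ ^ 2 * ‖FF T Q (σ + s * Complex.I) - 1‖ ^ 2 ≤
      2 * ‖riemannZeta (σ + s * Complex.I) * Mo (NM T * NR T) (cv (mm T Q) (qq δ T c m v σ u Real.cos)) (σ + s * Complex.I) -
        Mo (NR T) (qq δ T c m v σ u Real.cos) (σ + s * Complex.I)‖ ^ 2 +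
      2 * ‖riemannZeta (σ + s * Complex.I) * Mo (NM T * NR T) (cv (mm T Q) (qq δ T c m v σ u Real.sin)) (σ + s * Complex.I) -
        Mo (NR T) (qq δ T c m v σ u Real.sin) (σ + s * Complex.I)‖ ^ 2 := by
  have hq : ∀ w : ℝ → ℝ, ∀ n, NR T < n → qq δ T c m v σ u w n = 0 := fun w n hn => by
    unfold qq
    rw [hr n hn]
    ring
  rw [← Mo_mul (mm_supp hT) (hq _), ← Mo_mul (mm_supp hT) (hq _), RR_shift (σ := σ) s]
  unfold FF
  set z := riemannZeta (σ + s * Complex.I)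
  set M := Mo (NM T) (mm T Q) (σ + s * Complex.I)
  set a := Mo (NR T) (qq δ T c m v σ u Real.cos) (σ + s * Complex.I)
  set b := Mo (NR T) (qq δ T c m v σ u Real.sin) (σ + s * Complex.I)
  have e1 : z * (M * a) - a = a * (z * M - 1) := by ring
  have e2 : z * (M * b) - b = b * (z * M - 1) := by ring
  rw [e1, e2, norm_mul, norm_mul, mul_pow, mul_pow]
  have h1 : ‖a + Complex.I * b‖ ^ 2 ≤ 2 * ‖a‖ ^ 2 + 2 * ‖b‖ ^ 2 := by
    have h2 : ‖a + Complex.I * b‖ ≤ ‖a‖ + ‖b‖ := by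
      refine (norm_add_le _ _).trans (le_of_eq ?_)
      rw [norm_mul, Complex.norm_I, one_mul]
    have h3 : ‖a + Complex.I * b‖ ^ 2 ≤ (‖a‖ + ‖b‖) ^ 2 := pow_le_pow_left₀ (norm_nonneg _) h2 2
    nlinarith [sq_nonneg (‖a‖ - ‖b‖)]
  nlinarith [sq_nonneg ‖z * M - 1‖, mul_le_mul_of_nonneg_right h1 (sq_nonneg ‖z * M - 1‖)]

/-- one part -/
lemma part {δ T c m v σ u τ : ℝ} {Q : Finset ℕ} {w : ℝ → ℝ} (hw : ∀ x, |w x| ≤ 1) {T1 : ℝ}
    (hT1 : 10 ≤ T1) (herr : ∀ T : ℝ, T1 ≤ T → ∀ σ τ : ℝ, |τ| ≤ 4 * T → 1 / 2 + 1 / Real.log T ≤ σ → σ ≤ 3 / 4 →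
    1 ≤ WW T - σ ∧
    (2 * T ^ (67 / 192 : ℝ)) ^ 2 * (15 * (1 + |τ| / (WW T - σ)) / ((WW T - σ) * (2 * σ - 1)) + 4 / (WW T - σ) +
      (2 * NR T + 2 * (3 + |τ| / (WW T - σ))) * Real.exp (-((WW T - σ) / (NR T + 1)))) ≤ T ^ (-(1 / 64) : ℝ))
    (hT : T1 ≤ T) (hτ : |τ| ≤ 4 * T) (hσ : 1 / 2 + 1 / Real.log T ≤ σ) (hσ1 : σ ≤ 3 / 4)
    (hr : ∀ n, |rr δ T c m v n| ≤ T ^ (1 / 192 : ℝ)) (hr0 : rr δ T c m v 0 = 0) (hrN : ∀ n, NR T < n → rr δ T c m v n = 0)
    (hs : Summable (fun j : ℕ => ((∑ h ∈ j.divisors, gg T Q h * qq δ T c m v σ u w (j / h)) - qq δ T c m v σ u w j) ^ 2 *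
      (j : ℝ) ^ (-2 * σ))) {M : ℝ}
    (hM : ∑' j : ℕ, ((∑ h ∈ j.divisors, gg T Q h * qq δ T c m v σ u w (j / h)) - qq δ T c m v σ u w j) ^ 2 *
      (j : ℝ) ^ (-2 * σ) ≤ M) {R : ℝ} (hR : 0 < R) :
    ∫ s in (-R)..R, PW (WW T) (s - τ) * ‖riemannZeta (σ + s * Complex.I) *
      Mo (NM T * NR T) (cv (mm T Q) (qq δ T c m v σ u w)) (σ + s * Complex.I) -
        Mo (NR T) (qq δ T c m v σ u w) (σ + s * Complex.I)‖ ^ 2 ≤ M + T ^ (-(1 / 64) : ℝ) := by
  have hT10 : 10 ≤ T := hT1.trans hT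
  have hT0 : 0 < T := by linarith
  have hTg1 : 1 < T := by linarith
  have hL : 0 < Real.log T := Real.log_pos hTg1
  have hσ0 : 1 / 2 < σ := lt_of_lt_of_le (by have : 0 < 1 / Real.log T := by positivity
                                             linarith) hσ
  obtain ⟨hl, he⟩ := herr T hT σ τ hτ hσ hσ1
  have hq : ∀ n, NR T < n → qq δ T c m v σ u w n = 0 := fun n hn => by
    unfold qq
    rw [hrN n hn]
    ring
  have hq0 : qq δ T c m v σ u w 0 = 0 := by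
    unfold qq
    rw [hr0]
    ring
  have h1 := zbc (NM T * NR T) (NR T) (cv (mm T Q) (qq δ T c m v σ u w)) (qq δ T c m v σ u w) (σ := σ) (l := WW T - σ) (τ := τ)
    hl hσ0 hσ1 hR
  rw [sub_add_cancel] at h1
  refine h1.trans ?_
  rw [tsum_conv (by linarith) (mm_supp hTg1) hq mm_zero hq0 hs]
  refine add_le_add hM (le_trans ?_ he)
  have s1 := fin_bd (u := u) hw hTg1 hσ1 hr
  have s2 := (sum_abs_cv (a := mm T Q) (mm_supp hTg1) hq).trans
    (mul_le_mul (sum_mm hTg1) s1 (Finset.sum_nonneg fun _ _ => abs_nonneg _) (by positivity))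
  have s3 : T ^ (3 / 16 : ℝ) * T ^ (31 / 192 : ℝ) = T ^ (67 / 192 : ℝ) := by
    rw [← Real.rpow_add hT0]
    norm_num
  have s4 : T ^ (31 / 192 : ℝ) ≤ T ^ (67 / 192 : ℝ) := Real.rpow_le_rpow_of_exponent_le hTg1.le (by norm_num)
  rw [s3] at s2
  have hl0 : 0 < WW T - σ := by linarith
  have h2σ : 0 < 2 * σ - 1 := by linarith
  refine mul_le_mul_of_nonneg_right ?_ ?_
  · refine pow_le_pow_left₀ (add_nonneg (Finset.sum_nonneg fun _ _ => abs_nonneg _)
      (Finset.sum_nonneg fun _ _ => abs_nonneg _)) ?_ 2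
    linarith
  · have : 0 ≤ |τ| / (WW T - σ) := by positivity
    positivity

/-- **M5** from R1, R2, M4. -/
theorem fm_of {δ : ℝ} (h1 : RrSupp δ) (h2 : RrBd δ) (h4 : Arith δ) :
    ∃ C c0 T0 : ℝ, 0 < C ∧ ∀ T c m v : ℝ, T0 ≤ T → Adm c0 T c m →
    |v| = vv δ c m →
    ∀ τ u y : ℝ, |τ| ≤ 2 * T → |u| ≤ 2 * T → 1 ≤ y → y ≤ Real.log T / 4 →
    Integrable (fun t => wt δ T c m v τ t * ‖FF T (PR δ T c m) (pt T y (t + u)) - 1‖ ^ 2) ∧
    ∫ t, wt δ T c m v τ t * ‖FF T (PR δ T c m) (pt T y (t + u)) - 1‖ ^ 2 ≤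
      C * Real.exp (C * √m - y / 16) * VV δ T c m v := by
  obtain ⟨C, cA, TA, hC, hA⟩ := h4
  obtain ⟨c2, T2, h2'⟩ := h2
  obtain ⟨T1, hT1, herr⟩ := err_bd
  refine ⟨8 * C + 4, max 1 (max cA c2), max (max TA T2) T1, by positivity, ?_⟩
  intro T c m v hT hc hv τ u y hτ hu hy1 hy2
  have hTA : TA ≤ T := ((le_max_left _ _).trans (le_max_left _ _)).trans hT
  have hT2 : T2 ≤ T := ((le_max_right _ _).trans (le_max_left _ _)).trans hT
  have hTT1 : T1 ≤ T := (le_max_right _ _).trans hT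
  have hT10 : 10 ≤ T := hT1.trans hTT1
  have hT0 : 0 < T := by linarith
  have hTg1 : 1 < T := by linarith
  have hL : 0 < Real.log T := Real.log_pos hTg1
  have hm1 : 1 ≤ m := hc.2.1
  have hcA : Adm cA T c m := hc.mono ((le_max_left _ _).trans (le_max_right _ _))
  have hc2 : Adm c2 T c m := hc.mono ((le_max_right _ _).trans (le_max_right _ _))
  set σ : ℝ := 1 / 2 + y / Real.log T with hσd
  have hσ : 1 / 2 + 1 / Real.log T ≤ σ := by
    have : 1 / Real.log T ≤ y / Real.log T := div_le_div_of_nonneg_right hy1 hL.le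
    linarith
  have hσ1 : σ ≤ 3 / 4 := by
    have : y / Real.log T ≤ 1 / 4 := by
      rw [div_le_iff₀ hL]
      linarith
    linarith
  have hτ' : |τ + u| ≤ 4 * T := (abs_add_le _ _).trans (by linarith)
  have hr := fun n => (h2' T c m v hT2 hc2 hv n).1
  have hVV := (h2' T c m v hT2 hc2 hv 0).2
  have hrN : ∀ n, NR T < n → rr δ T c m v n = 0 := fun n hn => by
    by_contra hcon
    have := (h1 hTg1.le (by linarith) hcon).2.1
    omega
  have hr0 : rr δ T c m v 0 = 0 := by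
    by_contra hcon
    have := (h1 hTg1.le (by linarith) hcon).1
    omega
  set M := C * T ^ (-(σ - 1 / 2 - 1 / Real.log T) / 16) * Real.exp (C * √m) * VV δ T c m v with hMd
  have pc := hA T c m v hTA hcA hv σ hσ hσ1 (qq δ T c m v σ u Real.cos) (qq_le Real.abs_cos_le_one)
  have ps := hA T c m v hTA hcA hv σ hσ hσ1 (qq δ T c m v σ u Real.sin) (qq_le Real.abs_sin_le_one)
  have Bc := fun R hR => part (u := u) (τ := τ + u) (R := R) Real.abs_cos_le_one hT1 herr hTT1 hτ' hσ hσ1 hr hr0 hrN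
    pc.1 pc.2 hR
  have Bs := fun R hR => part (u := u) (τ := τ + u) (R := R) Real.abs_sin_le_one hT1 herr hTT1 hτ' hσ hσ1 hr hr0 hrN
    ps.1 ps.2 hR
  have hW : 0 < WW T := by
    have h5 := (herr T hTT1 σ (τ + u) hτ' hσ hσ1).1
    have h6 : 0 < 1 / Real.log T := by positivity
    linarith
  set Φ : ℝ → ℝ := fun s => PW (WW T) (s - (τ + u)) * (‖RR δ T c m v (s - u)‖ ^ 2 * ‖FF T (PR δ T c m) (pt T y s) - 1‖ ^ 2) with hΦ
  have cPW : Continuous (fun s : ℝ => PW (WW T) (s - (τ + u))) := (PW_cont hW).comp (by fun_prop)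
  have cF : Continuous (fun s : ℝ => FF T (PR δ T c m) (pt T y s)) := FF_cont (T := T) (Q := PR δ T c m) (σ := σ) (by linarith)
  have cΦ : Continuous Φ :=
    cPW.mul ((((RR_cont δ T c m v).comp (by fun_prop)).norm.pow 2).mul ((cF.sub continuous_const).norm.pow 2))
  have hΦ0 : ∀ s, 0 ≤ Φ s := fun s => mul_nonneg (PW_pos hW _).le (by positivity)
  have cG : ∀ w : ℝ → ℝ, Continuous (fun s : ℝ => PW (WW T) (s - (τ + u)) * ‖riemannZeta (σ + s * Complex.I) *
      Mo (NM T * NR T) (cv (mm T (PR δ T c m)) (qq δ T c m v σ u w)) (σ + s * Complex.I) -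
        Mo (NR T) (qq δ T c m v σ u w) (σ + s * Complex.I)‖ ^ 2) := fun w =>
    cPW.mul ((((ze_cont (σ := σ) (by linarith)).mul ((Mo_cont _ _).comp (by fun_prop))).sub
      ((Mo_cont _ _).comp (by fun_prop))).norm.pow 2)
  set G1 : ℝ → ℝ := fun s => PW (WW T) (s - (τ + u)) * ‖riemannZeta (σ + s * Complex.I) *
      Mo (NM T * NR T) (cv (mm T (PR δ T c m)) (qq δ T c m v σ u Real.cos)) (σ + s * Complex.I) -
        Mo (NR T) (qq δ T c m v σ u Real.cos) (σ + s * Complex.I)‖ ^ 2 with hG1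
  set G2 : ℝ → ℝ := fun s => PW (WW T) (s - (τ + u)) * ‖riemannZeta (σ + s * Complex.I) *
      Mo (NM T * NR T) (cv (mm T (PR δ T c m)) (qq δ T c m v σ u Real.sin)) (σ + s * Complex.I) -
        Mo (NR T) (qq δ T c m v σ u Real.sin) (σ + s * Complex.I)‖ ^ 2 with hG2
  have cG1 : Continuous G1 := cG _
  have cG2 : Continuous G2 := cG _
  have hint : ∀ R : ℝ, 0 < R → ∫ s in (-R)..R, Φ s ≤ 4 * (M + T ^ (-(1 / 64) : ℝ)) := by
    intro R hR
    have i1 : IntervalIntegrable (fun s => 2 * G1 s) volume (-R) R := (continuous_const.mul cG1).intervalIntegrable _ _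
    have i2 : IntervalIntegrable (fun s => 2 * G2 s) volume (-R) R := (continuous_const.mul cG2).intervalIntegrable _ _
    have h3 : ∫ s in (-R)..R, Φ s ≤ ∫ s in (-R)..R, (2 * G1 s + 2 * G2 s) := by
      refine intervalIntegral.integral_mono_on (by linarith) (cΦ.intervalIntegrable _ _) (i1.add i2) fun s _ => ?_
      have h4 := mul_le_mul_of_nonneg_left (point (Q := PR δ T c m) (c := c) (m := m) (v := v) (σ := σ) (u := u) hTg1 hrN s)
        (PW_pos hW (s - (τ + u))).le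
      simp only [hΦ, hG1, hG2, pt_eq]
      refine h4.trans (le_of_eq ?_)
      ring
    rw [intervalIntegral.integral_add i1 i2, intervalIntegral.integral_const_mul,
      intervalIntegral.integral_const_mul] at h3
    have h5 : ∫ s in (-R)..R, G1 s ≤ M + T ^ (-(1 / 64) : ℝ) := Bc R hR
    have h6 : ∫ s in (-R)..R, G2 s ≤ M + T ^ (-(1 / 64) : ℝ) := Bs R hR
    linarith
  have hab : Tendsto (fun n : ℕ => -((n : ℝ) + 1)) atTop atBot :=
    tendsto_neg_atTop_atBot.comp (tendsto_atTop_add_const_right _ _ tendsto_natCast_atTop_atTop)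
  have hbb : Tendsto (fun n : ℕ => (n : ℝ) + 1) atTop atTop :=
    tendsto_atTop_add_const_right _ _ tendsto_natCast_atTop_atTop
  have hI : Integrable Φ := by
    refine integrable_of_intervalIntegral_norm_bounded (4 * (M + T ^ (-(1 / 64) : ℝ)))
      (fun n : ℕ => (cΦ.integrableOn_Icc (a := -((n : ℝ) + 1)) (b := (n : ℝ) + 1)).mono_set Ioc_subset_Icc_self) hab hbb
      (Eventually.of_forall fun n => ?_)
    have e : ∀ s, ‖Φ s‖ = Φ s := fun s => Real.norm_of_nonneg (hΦ0 s)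
    simp only [e]
    exact hint _ (by positivity)
  have hle : ∫ s, Φ s ≤ 4 * (M + T ^ (-(1 / 64) : ℝ)) := by
    have := intervalIntegral_tendsto_integral hI hab hbb
    exact le_of_tendsto this (Eventually.of_forall fun n => hint _ (by positivity))
  have e : (fun t => wt δ T c m v τ t * ‖FF T (PR δ T c m) (pt T y (t + u)) - 1‖ ^ 2) = fun t => Φ (t + u) := by
    funext t
    simp only [hΦ]
    unfold wt
    rw [show t + u - (τ + u) = t - τ by ring, show t + u - u = t by ring]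
    ring
  rw [e]
  refine ⟨hI.comp_add_right u, ?_⟩
  rw [integral_add_right_eq_self]
  refine hle.trans ?_
  -- numerical conclusion
  have hexp : T ^ (-(σ - 1 / 2 - 1 / Real.log T) / 16) ≤ 2 * Real.exp (-(y / 16)) := by
    have e1 : T ^ (-(σ - 1 / 2 - 1 / Real.log T) / 16) = Real.exp (1 / 16) * Real.exp (-(y / 16)) := by
      rw [Real.rpow_def_of_pos hT0, ← Real.exp_add, hσd]
      congr 1
      field_simp
      ring
    rw [e1]
    refine mul_le_mul_of_nonneg_right ?_ (Real.exp_pos _).le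
    have := Real.exp_one_lt_d9
    calc Real.exp (1 / 16) ≤ 2 := by
          have h5 : Real.exp (1 / 16) ^ 16 = Real.exp 1 := by
            rw [← Real.exp_nat_mul]
            norm_num
          by_contra hcon
          have h6 : (2:ℝ) ^ 16 < Real.exp (1 / 16) ^ 16 := pow_lt_pow_left₀ (not_le.1 hcon) (by norm_num) (by norm_num)
          rw [h5] at h6
          norm_num at h6
          linarith
      _ = 2 := rfl
  have h64 : T ^ (-(1 / 64) : ℝ) ≤ Real.exp (-(y / 16)) := by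
    rw [Real.rpow_def_of_pos hT0]
    apply Real.exp_le_exp.2
    linarith
  have hVV0 : 0 ≤ VV δ T c m v := by linarith
  have hE := (Real.exp_pos (-(y / 16))).le
  have hEc : 1 ≤ Real.exp (C * √m) := Real.one_le_exp (by positivity)
  have hEc2 : Real.exp (C * √m) ≤ Real.exp ((8 * C + 4) * √m) := by
    apply Real.exp_le_exp.2
    refine mul_le_mul_of_nonneg_right ?_ (Real.sqrt_nonneg _)
    linarith
  have hsplit : Real.exp ((8 * C + 4) * √m - y / 16) = Real.exp ((8 * C + 4) * √m) * Real.exp (-(y / 16)) := by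
    rw [← Real.exp_add]
    congr 1
  have hM1 : M ≤ 2 * C * (Real.exp (C * √m) * Real.exp (-(y / 16)) * VV δ T c m v) := by
    calc M = C * (T ^ (-(σ - 1 / 2 - 1 / Real.log T) / 16)) * (Real.exp (C * √m) * VV δ T c m v) := by
          rw [hMd]; ring
      _ ≤ C * (2 * Real.exp (-(y / 16))) * (Real.exp (C * √m) * VV δ T c m v) := by
          refine mul_le_mul_of_nonneg_right (mul_le_mul_of_nonneg_left hexp hC.le) (by positivity)
      _ = _ := by ring
  have hT64 : T ^ (-(1 / 64) : ℝ) ≤ Real.exp (C * √m) * Real.exp (-(y / 16)) * VV δ T c m v := by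
    calc T ^ (-(1 / 64) : ℝ) ≤ 1 * Real.exp (-(y / 16)) * 1 := by linarith
      _ ≤ _ := by
          refine mul_le_mul (mul_le_mul_of_nonneg_right hEc hE) hVV zero_le_one (by positivity)
  calc 4 * (M + T ^ (-(1 / 64) : ℝ)) ≤ 4 * (2 * C * (Real.exp (C * √m) * Real.exp (-(y / 16)) * VV δ T c m v) +
        Real.exp (C * √m) * Real.exp (-(y / 16)) * VV δ T c m v) := by linarith
    _ = (8 * C + 4) * (Real.exp (C * √m) * Real.exp (-(y / 16))) * VV δ T c m v := by ring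
    _ ≤ (8 * C + 4) * (Real.exp ((8 * C + 4) * √m) * Real.exp (-(y / 16))) * VV δ T c m v := by
        refine mul_le_mul_of_nonneg_right (mul_le_mul_of_nonneg_left ?_ (by positivity)) hVV0
        exact mul_le_mul_of_nonneg_right hEc2 hE
    _ = _ := by rw [hsplit]

end Pool.Agent.Helper64.UW
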