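import Pool.Agent.Helper64.UW.Fm
import Pool.Agent.Helper90.UW.Arith
import Pool.Agent.Helper36.UW.Res

/-!
# UW-M5: the weighted second moment of `F - 1`, without hypotheses
-/

set_option autoImplicit false
open MeasureTheory Set Filter Topology
open Pool.Agent.Helper57.Zeta Pool.Agent.Helper57.LH Pool.Agent.Helper57.ED Pool.Agent.Helper54.LG
open Pool.Agent.Helper69.UG (pt XX NR NM WW)
open Pool.Agent.Helper69.UW

namespace Pool.Agent.Helper64.UW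

/-- M5 -/
theorem fm {δ : ℝ} (hδ : 0 < δ) (hδ1 : δ ≤ 1 / 32) : ∃ C c0 T0 : ℝ, 0 < C ∧ ∀ T c m v : ℝ, T0 ≤ T → Adm c0 T c m →
    |v| = vv δ c m →
    ∀ τ u y : ℝ, |τ| ≤ 2 * T → |u| ≤ 2 * T → 1 ≤ y → y ≤ Real.log T / 4 →
    Integrable (fun t => wt δ T c m v τ t * ‖FF T (PR δ T c m) (pt T y (t + u)) - 1‖ ^ 2) ∧
    ∫ t, wt δ T c m v τ t * ‖FF T (PR δ T c m) (pt T y (t + u)) - 1‖ ^ 2 ≤
      C * Real.exp (C * √m - y / 16) * VV δ T c m v :=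
  fm_of (fun hT hm _ h => Pool.Agent.Helper36.UW.rr_supp hδ hT hm h) (Pool.Agent.Helper36.UW.rr_bd hδ hδ1)
    (Pool.Agent.Helper90.UW.arith hδ hδ1)

end Pool.Agent.Helper64.UW
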